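import Pool.Agent.Run7.h520.WO.I

/-! Piece RN (helper781), adapted from `Pool/Agent/Run7/h704/LW/{MOD1, MOD2}.lean`. -/

set_option autoImplicit false
set_option linter.all false

namespace Run7.h781.WO

open FirstOrder FirstOrder.Language
open Run7.h520.WO (STp S_RN S_OMIT)

section general

variable {L : FirstOrder.Language.{0, 0}} {N N' N'' : Type} [L.Structure N] [L.Structure N']
  [L.Structure N''] {α β γ : Type}

theorem stp_refl (s : α → N) : STp L s s := fun _ => Iff.rfl

theorem stp_symm {s : α → N} {t : α → N'} (h : STp L s t) : STp L t s :=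
  fun φ => (h φ).symm

theorem stp_trans {s : α → N} {t : α → N'} {r : α → N''} (h : STp L s t)
    (h' : STp L t r) : STp L s r := fun φ => (h φ).trans (h' φ)

theorem stp_comp {s : α → N} {t : α → N'} (h : STp L s t) (g : β → α) :
    STp L (s ∘ g) (t ∘ g) := fun φ => by
  have := h (φ.relabel g)
  rwa [Formula.realize_relabel, Formula.realize_relabel] at this

theorem stp_eq {s : α → N} {t : α → N'} (h : STp L s t) {i j : α} (hij : s i = s j) :
    t i = t j := by
  have := (h (Term.equal (Term.var i) (Term.var j))).1 (by simp [Formula.realize_equal, hij])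
  simpa [Formula.realize_equal] using this

end general

section

variable {L : FirstOrder.Language.{0, 0}} {M : Type} [L.Structure M]

/-- finitely many types of tuples -/
def FT (L : FirstOrder.Language.{0, 0}) (M : Type) [L.Structure M] : Prop :=
  ∀ (α : Type) [Finite α], ∃ F : Set (α → M), F.Finite ∧ ∀ t : α → M, ∃ s ∈ F, STp L s t

theorem ft_of (H : ∀ n : ℕ, ∃ F : Set (Fin n → M), F.Finite ∧
    ∀ t : Fin n → M, ∃ s ∈ F, STp L s t) : FT L M := by
  intro α _
  obtain ⟨F, hF, hF2⟩ := H (Nat.card α)
  let e := Finite.equivFin α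
  refine ⟨(fun s => s ∘ e) '' F, hF.image _, fun t => ?_⟩
  obtain ⟨s, hs, hst⟩ := hF2 (t ∘ e.symm)
  refine ⟨s ∘ e, ⟨s, hs, rfl⟩, ?_⟩
  have := stp_comp hst e
  rwa [Function.comp_assoc, Equiv.symm_comp_self, Function.comp_id] at this

theorem exists_rho (H : FT L M) {α : Type} [Finite α] (s : α → M) : ∃ ρ : L.Formula α,
    ∀ t : α → M, ρ.Realize t ↔ STp L s t := by
  classical
  obtain ⟨F, hF, hF2⟩ := H α
  have : Finite F := hF
  have h1 : ∀ s' : F, ∃ φ : L.Formula α, φ.Realize s ∧
      (¬ STp L s (s' : α → M) → ¬ φ.Realize (s' : α → M)) := by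
    intro s'
    by_cases h : STp L s (s' : α → M)
    · exact ⟨⊤, by simp, fun h' => absurd h h'⟩
    · unfold STp at h
      push Not at h
      obtain ⟨φ, hφ⟩ := h
      rcases hφ with ⟨h2, h3⟩ | ⟨h2, h3⟩
      · exact ⟨φ, h2, fun _ => h3⟩
      · exact ⟨φ.not, by rwa [Formula.realize_not], fun _ => by rwa [Formula.realize_not, not_not]⟩
  choose φ hφ1 hφ2 using h1
  refine ⟨Formula.iInf φ, fun t => ?_⟩
  rw [Formula.realize_iInf]
  constructor
  · intro h
    obtain ⟨s', hs', hst⟩ := hF2 t
    have h2 := (hst _).2 (h ⟨s', hs'⟩)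
    by_cases h3 : STp L s s'
    · exact stp_trans h3 hst
    · exact absurd h2 (hφ2 ⟨s', hs'⟩ h3)
  · intro h s'
    exact (h _).1 (hφ1 s')

theorem transfer_all {α : Type} [Finite α] {N : Type} [L.Structure N]
    (hN : N ⊨ L.completeTheory M) (φ : L.Formula α) (h : ∀ t : α → M, φ.Realize t) (t : α → N) :
    φ.Realize t := by
  have h1 : M ⊨ ((φ.relabel (Sum.inr : α → Empty ⊕ α)).iAlls α) := by
    rw [Sentence.Realize, Formula.realize_iAlls]
    intro i
    rw [Formula.realize_relabel]
    exact h _
  have h2 : N ⊨ ((φ.relabel (Sum.inr : α → Empty ⊕ α)).iAlls α) := hN.realize_of_mem _ h1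
  rw [Sentence.Realize, Formula.realize_iAlls] at h2
  have h3 := h2 t
  rw [Formula.realize_relabel] at h3
  exact h3

theorem isol (H : FT L M) {α : Type} [Finite α] (s : α → M) : ∃ ρ : L.Formula α,
    ∀ (N : Type) [L.Structure N], N ⊨ L.completeTheory M → ∀ t : α → N,
      ρ.Realize t ↔ STp L s t := by
  obtain ⟨ρ, hρ⟩ := exists_rho H s
  refine ⟨ρ, fun N _ hN t => ?_⟩
  constructor
  · intro h
    have key : ∀ ψ : L.Formula α, ψ.Realize s → ψ.Realize t := by
      intro ψ hψ
      have h1 : ∀ r : α → M, (ρ.imp ψ).Realize r := by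
        intro r
        rw [Formula.realize_imp]
        intro hr
        exact ((hρ r).1 hr ψ).1 hψ
      have h2 := transfer_all hN _ h1 t
      rw [Formula.realize_imp] at h2
      exact h2 h
    intro φ
    refine ⟨key φ, fun ht => ?_⟩
    by_contra hs
    have := key φ.not (by rwa [Formula.realize_not])
    rw [Formula.realize_not] at this
    exact this ht
  · intro h
    exact (h _).1 ((hρ s).2 (stp_refl s))

theorem cov (H : FT L M) {α : Type} [Finite α] {N : Type} [L.Structure N]
    (hN : N ⊨ L.completeTheory M) (t : α → N) : ∃ s : α → M, STp L s t := by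
  obtain ⟨F, hF, hF2⟩ := H α
  have : Finite F := hF
  choose ρ hρ using fun s : α → M => isol (L := L) H s
  have h1 : ∀ r : α → M, (Formula.iSup (fun s : F => ρ (s : α → M))).Realize r := by
    intro r
    rw [Formula.realize_iSup]
    obtain ⟨s, hs, hs2⟩ := hF2 r
    exact ⟨⟨s, hs⟩, (hρ s M inferInstance r).2 hs2⟩
  have h2 := transfer_all hN _ h1 t
  rw [Formula.realize_iSup] at h2
  obtain ⟨s, hs⟩ := h2
  exact ⟨s, (hρ _ N hN t).1 hs⟩

theorem stp_ext (H : FT L M) {α β : Type} [Finite α] [Finite β] {N N' : Type} [L.Structure N]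
    [L.Structure N'] (hN : N ⊨ L.completeTheory M) (hN' : N' ⊨ L.completeTheory M)
    {s : α → N} {s' : α → N'} (h : STp L s s') (t : β → N) :
    ∃ t' : β → N', STp L (Sum.elim s t) (Sum.elim s' t') := by
  obtain ⟨r, hr⟩ := cov H hN (Sum.elim s t)
  obtain ⟨ρ, hρ⟩ := isol H r
  have h1 : (ρ.iExs β).Realize s := by
    rw [Formula.realize_iExs]
    exact ⟨t, (hρ N hN _).2 hr⟩
  have h2 := (h _).1 h1
  rw [Formula.realize_iExs] at h2
  obtain ⟨t', ht'⟩ := h2
  exact ⟨t', stp_trans (stp_symm hr) ((hρ N' hN' _).1 ht')⟩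

/-- back and forth between two countable models -/
theorem backforth (H : FT L M) {N N' : Type} [L.Structure N] [L.Structure N']
    (hN : N ⊨ L.completeTheory M) (hN' : N' ⊨ L.completeTheory M) (e : ℕ → N) (e' : ℕ → N') :
    ∃ (f : ℕ → N) (g : ℕ → N'),
      (∀ m, STp L (fun i : Fin m => f i) (fun i : Fin m => g i)) ∧
      (∀ n, f (2 * n) = e n) ∧ ∀ n, g (2 * n + 1) = e' n := by
  classical
  have step : ∀ m (fg : (ℕ → N) × (ℕ → N')),
      STp L (fun i : Fin m => fg.1 i) (fun i : Fin m => fg.2 i) →
      ∃ fg' : (ℕ → N) × (ℕ → N'), (∀ i < m, fg'.1 i = fg.1 i ∧ fg'.2 i = fg.2 i) ∧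
        (∀ n, m = 2 * n → fg'.1 m = e n) ∧ (∀ n, m = 2 * n + 1 → fg'.2 m = e' n) ∧
        STp L (fun i : Fin (m + 1) => fg'.1 i) (fun i : Fin (m + 1) => fg'.2 i) := by
    intro m fg hfg
    have key : ∀ (x : N) (y : N'),
        STp L (Sum.elim (fun i : Fin m => fg.1 i) (fun _ : Fin 1 => x))
          (Sum.elim (fun i : Fin m => fg.2 i) (fun _ : Fin 1 => y)) →
        STp L (fun i : Fin (m + 1) => Function.update fg.1 m x i)
          (fun i : Fin (m + 1) => Function.update fg.2 m y i) := by
      intro x y h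
      have h2 := stp_comp h (fun i : Fin (m + 1) =>
        if h : (i : ℕ) < m then (Sum.inl (⟨i, h⟩ : Fin m) : Fin m ⊕ Fin 1) else Sum.inr 0)
      convert h2 using 1
      · funext i
        by_cases h : (i : ℕ) < m
        · simp [h, Function.update, h.ne]
        · have h' : (i : ℕ) = m := by omega
          simp [h', Function.update]
      · funext i
        by_cases h : (i : ℕ) < m
        · simp [h, Function.update, h.ne]
        · have h' : (i : ℕ) = m := by omega
          simp [h', Function.update]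
    rcases Nat.even_or_odd' m with ⟨n, hn | hn⟩
    · obtain ⟨t', ht'⟩ := stp_ext H hN hN' hfg (fun _ : Fin 1 => e n)
      refine ⟨(Function.update fg.1 m (e n), Function.update fg.2 m (t' 0)), ?_, ?_, ?_, ?_⟩
      · intro i hi
        simp [Function.update, hi.ne]
      · intro n' hn'
        have : n' = n := by omega
        simp [this]
      · intro n' hn'
        omega
      · apply key
        convert ht' using 2
        funext i
        rw [Subsingleton.elim i 0]
    · obtain ⟨t', ht'⟩ := stp_ext H hN' hN (stp_symm hfg) (fun _ : Fin 1 => e' n)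
      refine ⟨(Function.update fg.1 m (t' 0), Function.update fg.2 m (e' n)), ?_, ?_, ?_, ?_⟩
      · intro i hi
        simp [Function.update, hi.ne]
      · intro n' hn'
        omega
      · intro n' hn'
        have : n' = n := by omega
        simp [this]
      · apply key
        convert (stp_symm ht') using 2
        funext i
        rw [Subsingleton.elim i 0]
  have h0 : STp L (fun i : Fin 0 => e i) (fun i : Fin 0 => e' i) := by
    obtain ⟨s, hs⟩ := cov H hN (fun i : Fin 0 => e i)
    obtain ⟨s', hs'⟩ := cov H hN' (fun i : Fin 0 => e' i)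
    have : s = s' := funext fun i => i.elim0
    subst this
    exact stp_trans (stp_symm hs) hs'
  let X : ℕ → Type := fun m => {fg : (ℕ → N) × (ℕ → N') //
    STp L (fun i : Fin m => fg.1 i) (fun i : Fin m => fg.2 i)}
  let F : ∀ m, X m := fun m => Nat.rec (motive := X) ⟨(e, e'), h0⟩
    (fun m f => ⟨(step m f.1 f.2).choose, (step m f.1 f.2).choose_spec.2.2.2⟩) m
  have hF : ∀ m, ∀ i < m, (F (m + 1)).1.1 i = (F m).1.1 i ∧ (F (m + 1)).1.2 i = (F m).1.2 i :=
    fun m i hi => (step m (F m).1 (F m).2).choose_spec.1 i hi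
  have hF2 : ∀ n m, m ≤ n → ∀ i < m, (F n).1.1 i = (F m).1.1 i ∧ (F n).1.2 i = (F m).1.2 i := by
    intro n m hmn
    induction hmn with
    | refl => intro i _; exact ⟨rfl, rfl⟩
    | step h ih =>
      intro i hi
      obtain ⟨h1, h2⟩ := hF _ i (lt_of_lt_of_le hi h)
      obtain ⟨h3, h4⟩ := ih i hi
      exact ⟨h1.trans h3, h2.trans h4⟩
  refine ⟨fun m => (F (m + 1)).1.1 m, fun m => (F (m + 1)).1.2 m, ?_, ?_, ?_⟩
  · intro m
    have h1 := (F m).2
    convert h1 using 1
    · funext i
      rw [(hF2 m (i + 1) i.2 i (Nat.lt_succ_self _)).1]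
    · funext i
      rw [(hF2 m (i + 1) i.2 i (Nat.lt_succ_self _)).2]
  · intro n
    exact (step (2 * n) (F (2 * n)).1 (F (2 * n)).2).choose_spec.2.1 n rfl
  · intro n
    exact (step (2 * n + 1) (F (2 * n + 1)).1 (F (2 * n + 1)).2).choose_spec.2.2.1 n rfl

theorem iso (H : FT L M) {N N' : Type} [L.Structure N] [L.Structure N']
    (hN : N ⊨ L.completeTheory M) (hN' : N' ⊨ L.completeTheory M) (hc : Countable N)
    (hc' : Countable N') (hne : Nonempty N) (hne' : Nonempty N') : Nonempty (N ≃[L] N') := by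
  classical
  obtain ⟨e, he⟩ := exists_surjective_nat N
  obtain ⟨e', he'⟩ := exists_surjective_nat N'
  obtain ⟨f, g, h1, h2, h3⟩ := backforth H hN hN' e e'
  have hsub : ∀ {α : Type} [Finite α] (i : α → ℕ),
      STp L (fun a => f (i a)) (fun a => g (i a)) := by
    intro α _ i
    obtain ⟨M, hM⟩ : ∃ M : ℕ, ∀ a, i a < M := by
      obtain ⟨M, hM⟩ := (Set.finite_range i).bddAbove
      exact ⟨M + 1, fun a => Nat.lt_succ_of_le (hM ⟨a, rfl⟩)⟩
    exact stp_comp (h1 M) (fun a => (⟨i a, hM a⟩ : Fin M))
  have hf : ∀ x, ∃ n, f n = x := fun x => by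
    obtain ⟨n, hn⟩ := he x
    exact ⟨2 * n, (h2 n).trans hn⟩
  have hg : ∀ x, ∃ n, g n = x := fun x => by
    obtain ⟨n, hn⟩ := he' x
    exact ⟨2 * n + 1, (h3 n).trans hn⟩
  have hfg : ∀ i j, f i = f j ↔ g i = g j := by
    intro i j
    have h4 := hsub ![i, j]
    constructor
    · intro h
      exact stp_eq h4 (i := 0) (j := 1) h
    · intro h
      exact stp_eq (stp_symm h4) (i := 0) (j := 1) h
  choose nf hnf using hf
  choose ng hng using hg
  refine ⟨⟨⟨fun x => g (nf x), fun y => f (ng y), ?_, ?_⟩, ?_, ?_⟩⟩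
  · intro x
    have : f (ng (g (nf x))) = f (nf x) := (hfg _ _).2 (hng _)
    show f (ng (g (nf x))) = x
    rw [this, hnf]
  · intro y
    have : g (nf (f (ng y))) = g (ng y) := (hfg _ _).1 (hnf _)
    show g (nf (f (ng y))) = y
    rw [this, hng]
  · intro n F x
    have h5 := hsub (fun a : Option (Fin n) => a.elim (nf (Structure.funMap F x))
      (fun a => nf (x a))) (Term.equal (Term.func F (fun i => Term.var (some i)))
        (Term.var none))
    rw [Formula.realize_equal, Formula.realize_equal] at h5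
    simp only [Term.realize_func, Term.realize_var, Option.elim, hnf] at h5
    exact (h5.1 trivial).symm
  · intro n r x
    have h5 := hsub (fun a => nf (x a)) (Relations.formula r (fun i => Term.var i))
    rw [Formula.realize_rel, Formula.realize_rel] at h5
    simp only [Term.realize_var, hnf] at h5
    exact h5.symm

end

theorem rn : S_RN := by
  intro L M _ _ H
  have H' := ft_of H
  intro N N' hN hN'
  have hc : Countable N := Cardinal.mk_le_aleph0_iff.1 hN.le
  have hc' : Countable N' := Cardinal.mk_le_aleph0_iff.1 hN'.le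
  exact iso H' N.is_model N'.is_model hc hc' inferInstance inferInstance

/-! ### OMIT -/

theorem t_omit : S_OMIT := by
  classical
  intro L M _ _ _ hL ψ hne hdec hempty hcat
  have hdec' : ∀ j k, j ≤ k → ∀ v : Fin 1 → M, (ψ k).Realize v → (ψ j).Realize v := by
    intro j k hjk
    induction hjk with
    | refl => intro v h; exact h
    | step _ ih => intro v h; exact ih v (hdec _ v h)
  choose v hv using hne
  let u : Ultrafilter ℕ := Filter.hyperfilter ℕ
  let N : Type := (u : Filter ℕ).Product (fun _ : ℕ => M)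
  let w : Fin 1 → N := fun i => ((fun k => v k i : ℕ → M) : (u : Filter ℕ).Product (fun _ : ℕ => M))
  have hw : ∀ j, (ψ j).Realize w := by
    intro j
    have := (Ultraproduct.realize_formula_cast (u := u) (M := fun _ : ℕ => M) (ψ j)
      (fun i k => v k i)).2 ?_
    · exact this
    · have h1 : ∀ᶠ k in (u : Filter ℕ), j ≤ k := by
        have h2 : ∀ᶠ k in Filter.atTop, j ≤ k := Filter.eventually_ge_atTop j
        rw [← Nat.cofinite_eq_atTop] at h2
        exact Filter.hyperfilter_le_cofinite h2
      filter_upwards [h1] with k hk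
      exact hdec' j k hk _ (hv k)
  have hNM : N ⊨ L.completeTheory M := by
    constructor
    intro φ hφ
    have := (Ultraproduct.sentence_realize (u := u) (M := fun _ : ℕ => M) φ).2
      (Filter.Eventually.of_forall fun _ => hφ)
    exact this
  have hemb : Function.Injective (fun m : M => ((fun _ => m : ℕ → M) : N)) := by
    intro a b hab
    have := Quotient.exact' hab
    have h2 : ∀ᶠ k in (u : Filter ℕ), a = b := this
    exact (Filter.eventually_const.1 h2)
  haveI : Infinite N := Infinite.of_injective _ hemb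
  obtain ⟨S, hS, hcard⟩ := exists_elementarySubstructure_card_eq L ({w 0} : Set N)
    (Cardinal.aleph0 : Cardinal.{0}) le_rfl (by simp) (by simpa using hL) (by simp [Cardinal.aleph0_le_mk])
  have hcard' : Cardinal.mk S = Cardinal.aleph0 := by simpa using hcard
  have hSM : S ⊨ L.completeTheory M := (S.theory_model_iff _).2 hNM
  haveI : Nonempty M := inferInstance
  haveI : Nonempty S := ⟨⟨w 0, hS rfl⟩⟩
  haveI : M ⊨ L.completeTheory M := inferInstance
  obtain ⟨e⟩ := hcat (Theory.ModelType.of (L.completeTheory M) S)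
    (Theory.ModelType.of (L.completeTheory M) M) hcard' (Cardinal.mk_eq_aleph0 M)
  let e' : S ≃[L] M := e
  let w' : Fin 1 → S := fun i => ⟨w 0, hS rfl⟩
  obtain ⟨k, hk⟩ := hempty (e' ∘ w')
  apply hk
  rw [StrongHomClass.realize_formula e']
  rw [← S.subtype.map_formula]
  have : (S.subtype ∘ w') = w := by
    funext i
    rw [Subsingleton.elim i 0]
    rfl
  rw [this]
  exact hw k

end Run7.h781.WO
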